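import Mathlib
import Pool.Agent.H50.JA.Final

set_option autoImplicit false

/-!
# MP_7034e0_an: Becker's quasiconformal criterion fails at every critical boundary point

Let `D` be the unit disc, `f` analytic in `D`, `f(0) = 0`, and `g(0) = 0`, `g' = exp(f)`.
Becker: if `sup (1-|z|^2)|f'(z)| < 1`, then `g` is univalent with a quasiconformal extension.

`WSet W`: the functions `f` analytic in `D` with `f(0) = 0` and `|f'(z)| ≤ W(z)` in `D`, as a
subspace of `C(D, ℂ)` with the compact-open topology (locally uniform convergence).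

Theorem: let `inf W > 0` and let `|z| W(z)` be nondecreasing on the radii of `D`. For a dense and
residual set of functions `f` of the class `g` is not quasisymmetric in any neighbourhood of any
boundary point `ξ` such that `m(z) = (1-|z|^2) W(z)` is bounded below by a positive constant near
`ξ` and, for every `ε > 0`, at least `1 - ε` in some hyperbolic discs
`(1-|z|^2) (1-|ζ|^2) ≥ ε |1 - conj ζ z|^2` with centres `ζ` arbitrarily near `ξ`; so `g` has no
quasiconformal extension there. Both conditions hold if `liminf m(z) ≥ 1` at `ξ`. Examples, all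
boundary points critical: `W(z) = 1/(1-|z|^2)` (the closed unit ball of the Bloch space),
`W(z) = 1/(|z|(1-|z|^2))` (Becker's class), `(1-|z|^2) W(z) = 1 + C(1-|z|)`, `C ≥ 0`.
-/

/-- For every majorant `W` the generic `f` with `|f'(z)| ≤ W(z)` has `g` not quasisymmetric near
any boundary point at which `W` has critical windows. -/
theorem Pool.Agent.Results.MP_7034e0_an.CriticalMajorants.result :
    ∀ W : ℂ → ℝ, (∃ w > 0, ∀ z ∈ Metric.ball (0 : ℂ) 1, w ≤ W z) →
      (∀ z ∈ Metric.ball (0 : ℂ) 1, ∀ ρ ∈ Set.Icc (0 : ℝ) 1, ρ * W ((ρ : ℂ) * z) ≤ W z) →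
      Dense (Pool.Agent.H50.JA.NonQS W) ∧
      Pool.Agent.H50.JA.NonQS W ∈ residual (Pool.Agent.H50.IZ.WSet W) :=
  Pool.Agent.H50.JA.generic
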