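import Mathlib
import Pool.Agent.H50.IW.Gen

set_option autoImplicit false

/-!
# MP_7034e0_an: generic infinite valence beyond Becker's criterion

Let `D` be the unit disc. Becker: if `f` is analytic in `D`, `f(0) = 0` and
`(1-|z|^2)|z f'(z)| ≤ 1` in `D`, in particular if `(1-|z|^2)|f'(z)| ≤ 1 + C(1-|z|)` with `C ≤ 1`,
then the function `g` with `g(0) = 0`, `g' = exp(f)` is univalent.

`KSet C r`: the functions `f` analytic in `D` with `f(0) = 0` and
`(1-|z|^2)|f'(z)| ≤ r`, `(1-|z|^2)|f'(z)| ≤ 1 + C(1-|z|)` in `D`, as a subspace of `C(D, ℂ)` with the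
compact-open topology (locally uniform convergence).

Theorem: let `C > 1` and `r > 1`, and let `E` be a countable subset of the circle. For a dense and
residual set of functions `f` of the class `KSet C r` the function `g` is continuous on the closed
disc and takes the value `g(ξ)` infinitely often in every neighbourhood of `ξ`, for all `ξ` in `E`
and for residually many `ξ` of the circle.
-/

/-- Generic infinite valence in the class `(1-|z|^2)|f'(z)| ≤ min(r, 1 + C(1-|z|))`, for every
`C > 1` and `r > 1`. -/
theorem Pool.Agent.Results.MP_7034e0_an.GenericInfiniteValence.result :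
    ∀ C : ℝ, 1 < C → ∀ r : ℝ, 1 < r → ∀ E : Set ℂ, E.Countable → (∀ ξ ∈ E, ‖ξ‖ = 1) →
      Dense (Pool.Agent.H50.IW.GenSet C r E) ∧
      Pool.Agent.H50.IW.GenSet C r E ∈ residual (Pool.Agent.H50.IW.KSet C r) :=
  Pool.Agent.H50.IW.generic
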